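import Pool.Agent.Lib.MP_f4ebb7_co.CHD.AsyG

/-!
# The parameters `y = x^((1+δ)/2)`, `G0 = x^δ`, `1/2 ≤ δ < 1`
-/

set_option autoImplicit false

namespace Pool.Agent.Lib.MP_82ec8b_co.LG

open Pool.CHD Filter

private theorem ev_log (B : ℝ) : ∀ᶠ x : ℕ in atTop, B ≤ Real.log x :=
  (Real.tendsto_log_atTop.comp tendsto_natCast_atTop_atTop).eventually_ge_atTop B

private theorem ev_pow (e : ℝ) (he : 0 < e) : ∀ᶠ x : ℕ in atTop, 68 * Real.log x ≤ (x : ℝ) ^ e := by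
  have h := (isLittleO_log_rpow_atTop he).def (c := 1 / 68) (by norm_num)
  have h2 := tendsto_natCast_atTop_atTop (R := ℝ) |>.eventually h
  filter_upwards [h2, ev_log 0] with x hx h0
  rw [Real.norm_of_nonneg h0, Real.norm_of_nonneg (Real.rpow_nonneg (Nat.cast_nonneg x) _)] at hx
  linarith

/-- the asymptotic facts used in the count -/
theorem asym (κ δ : ℝ) (hκ : 0 < κ) (hδ : 1 / 2 ≤ δ) (hδ1 : δ < 1) : ∃ x0 : ℕ, ∀ x : ℕ, x0 ≤ x →
    x < (yg ((1 + δ) / 2) x) ^ 2 ∧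
    (∀ c : ℕ, (c : ℝ) ≤ (x : ℝ) ^ ((1 + δ) / 2 / 16) →
      4 * (Nat.log 2 (4 * (c * x ^ 2) ^ 2) + 1) * yg δ x ≤ yg ((1 + δ) / 2) x) ∧
    κ * (1 - δ) / 4 ≤ κ * (Real.log (Real.log x) -
      Real.log (Real.log ((yg ((1 + δ) / 2) x + 1 : ℕ) : ℝ))) -
      3 / Real.log (yg ((1 + δ) / 2) x) := by
  have hd : 0 < (1 - δ) / 2 := by linarith
  have hB : 0 < 4 * (κ + 6) / (κ * (1 - δ)) := by
    have : 0 < 1 - δ := by linarith
    positivity
  refine eventually_atTop.1 ?_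
  filter_upwards [ev_log (4 * (κ + 6) / (κ * (1 - δ)) + 2), ev_pow _ hd, eventually_ge_atTop 16]
    with x hL hp hx
  have hx16 : (16 : ℝ) ≤ x := by exact_mod_cast hx
  have hx0 : (0 : ℝ) < x := by linarith
  have hx1 : (1 : ℝ) ≤ x := by linarith
  set L := Real.log x with hLdef
  have hL2 : 2 ≤ L := by linarith
  set e := (1 + δ) / 2 with he
  have he34 : 3 / 4 ≤ e := by linarith
  have he1 : e < 1 := by linarith
  -- lower bound for `y`
  have hyl : (x : ℝ) ^ e < (yg e x : ℝ) + 1 := Nat.lt_floor_add_one _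
  have hyu : (yg e x : ℝ) ≤ (x : ℝ) ^ e := Nat.floor_le (Real.rpow_nonneg hx0.le _)
  have h12 : (x : ℝ) ^ (1 / 2 : ℝ) * (x : ℝ) ^ (1 / 2 : ℝ) = x := by
    rw [← Real.rpow_add hx0]; norm_num
  have h14 : (2 : ℝ) ≤ (x : ℝ) ^ (1 / 4 : ℝ) := by
    calc (2 : ℝ) = (16 : ℝ) ^ (1 / 4 : ℝ) := by
          rw [show (16 : ℝ) = 2 ^ (4 : ℝ) by norm_num, ← Real.rpow_mul (by norm_num)]
          norm_num
      _ ≤ (x : ℝ) ^ (1 / 4 : ℝ) := Real.rpow_le_rpow (by norm_num) hx16 (by norm_num)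
  have h12' : (1 : ℝ) ≤ (x : ℝ) ^ (1 / 2 : ℝ) := Real.one_le_rpow hx1 (by norm_num)
  have hy12 : (x : ℝ) ^ (1 / 2 : ℝ) < yg e x := by
    have h1 : (x : ℝ) ^ (3 / 4 : ℝ) ≤ (x : ℝ) ^ e := Real.rpow_le_rpow_of_exponent_le hx1 he34
    have h2 : (x : ℝ) ^ (3 / 4 : ℝ) = (x : ℝ) ^ (1 / 2 : ℝ) * (x : ℝ) ^ (1 / 4 : ℝ) := by
      rw [← Real.rpow_add hx0]; norm_num
    have h3 : (4 : ℝ) ≤ (x : ℝ) ^ (1 / 2 : ℝ) := by
      have h4 : (x : ℝ) ^ (1 / 2 : ℝ) = (x : ℝ) ^ (1 / 4 : ℝ) * (x : ℝ) ^ (1 / 4 : ℝ) := by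
        rw [← Real.rpow_add hx0]; norm_num
      rw [h4]; nlinarith
    nlinarith
  have hsq : (x : ℝ) < (yg e x : ℝ) ^ 2 := by nlinarith
  refine ⟨by exact_mod_cast hsq, ?_, ?_⟩
  · intro c hc
    refine Nat.le_floor ?_
    have hcx : (c : ℝ) ≤ x := by
      refine hc.trans ?_
      calc (x : ℝ) ^ (e / 16) ≤ (x : ℝ) ^ (1 : ℝ) :=
            Real.rpow_le_rpow_of_exponent_le hx1 (by linarith)
        _ = x := Real.rpow_one _
    have hcx' : c ≤ x := by exact_mod_cast hcx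
    have hn : 4 * (c * x ^ 2) ^ 2 ≤ 4 * (x * x ^ 2) ^ 2 :=
      Nat.mul_le_mul_left 4 (Nat.pow_le_pow_left (Nat.mul_le_mul_right _ hcx') 2)
    have hlog1 : Nat.log 2 (4 * (c * x ^ 2) ^ 2) ≤ Nat.log 2 (4 * (x * x ^ 2) ^ 2) :=
      Nat.log_mono_right hn
    have hne : 4 * (x * x ^ 2) ^ 2 ≠ 0 := by positivity
    have hpow := Nat.pow_log_le_self 2 hne
    have hreal : (2 : ℝ) ^ Nat.log 2 (4 * (x * x ^ 2) ^ 2) ≤ 4 * (x : ℝ) ^ 6 := by
      have h1 : ((2 ^ Nat.log 2 (4 * (x * x ^ 2) ^ 2) : ℕ) : ℝ) ≤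
          ((4 * (x * x ^ 2) ^ 2 : ℕ) : ℝ) := by exact_mod_cast hpow
      push_cast at h1
      calc _ ≤ _ := h1
        _ = 4 * (x : ℝ) ^ 6 := by ring
    have hlog2 := Real.log_le_log (by positivity) hreal
    rw [Real.log_pow, Real.log_mul (by norm_num) (by positivity), Real.log_pow] at hlog2
    have hl2 := Real.log_two_gt_d9
    have hl2' := Real.log_two_lt_d9
    have hl4 : Real.log 4 = 2 * Real.log 2 := by
      rw [show (4 : ℝ) = 2 ^ 2 by norm_num, Real.log_pow]; push_cast; ring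
    rw [hl4, ← hLdef] at hlog2
    push_cast at hlog2
    set N : ℝ := (Nat.log 2 (4 * (x * x ^ 2) ^ 2) : ℝ) with hN
    have hN0 : 0 ≤ N := Nat.cast_nonneg _
    have hNb : N ≤ 4 + 12 * L := by nlinarith
    have hNc : (Nat.log 2 (4 * (c * x ^ 2) ^ 2) : ℝ) ≤ N := by
      rw [hN]
      exact Nat.cast_le.2 hlog1
    have hyδ : (yg δ x : ℝ) ≤ (x : ℝ) ^ δ := Nat.floor_le (Real.rpow_nonneg hx0.le _)
    have hyδ0 : (0 : ℝ) ≤ yg δ x := Nat.cast_nonneg _
    push_cast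
    calc 4 * ((Nat.log 2 (4 * (c * x ^ 2) ^ 2) : ℝ) + 1) * (yg δ x : ℝ)
        ≤ (68 * L) * (x : ℝ) ^ δ := by
          refine mul_le_mul ?_ hyδ hyδ0 (by linarith)
          linarith
      _ ≤ (x : ℝ) ^ ((1 - δ) / 2) * (x : ℝ) ^ δ :=
          mul_le_mul_of_nonneg_right hp (Real.rpow_nonneg hx0.le _)
      _ = (x : ℝ) ^ e := by
          rw [← Real.rpow_add hx0]
          congr 1
          rw [he]; ring
  · have hyp : (0 : ℝ) < yg e x := lt_of_lt_of_le (by linarith) hy12.le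
    -- `3 / log y ≤ 6 / L`
    have hly : L / 2 ≤ Real.log (yg e x) := by
      have h1 := Real.log_le_log hx0 hsq.le
      rw [Real.log_pow] at h1
      push_cast at h1
      linarith
    have h3 : 3 / Real.log (yg e x) ≤ 6 / L := by
      rw [div_le_div_iff₀ (by linarith) (by linarith)]
      linarith
    -- `log log (y + 1)`
    have hpe : (1 : ℝ) ≤ (x : ℝ) ^ e := Real.one_le_rpow hx1 (by linarith)
    have hy1 : Real.log ((yg e x + 1 : ℕ) : ℝ) ≤ e * L + 1 := by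
      have h1 : ((yg e x + 1 : ℕ) : ℝ) ≤ 2 * (x : ℝ) ^ e := by push_cast; linarith
      have h2 := Real.log_le_log (by positivity) h1
      rw [Real.log_mul (by norm_num) (by positivity), Real.log_rpow hx0, ← hLdef] at h2
      have := Real.log_two_lt_d9
      linarith
    have hy1' : 0 < Real.log ((yg e x + 1 : ℕ) : ℝ) := by
      apply Real.log_pos
      push_cast
      linarith
    have h4 : Real.log (Real.log ((yg e x + 1 : ℕ) : ℝ)) ≤ Real.log (e * L + 1) :=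
      Real.log_le_log hy1' hy1
    have heL : 0 < e * L + 1 := by positivity
    have h5 : Real.log (e * L + 1) ≤ Real.log L + (e + 1 / L - 1) := by
      have h6 := Real.log_le_sub_one_of_pos (show 0 < (e * L + 1) / L by positivity)
      rw [Real.log_div heL.ne' (by positivity)] at h6
      have h7 : (e * L + 1) / L = e + 1 / L := by field_simp
      rw [h7] at h6
      linarith
    have h8 : (1 - δ) / 2 - 1 / L ≤ Real.log L - Real.log (Real.log ((yg e x + 1 : ℕ) : ℝ)) := by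
      have : e - 1 = -((1 - δ) / 2) := by rw [he]; ring
      linarith
    have h9 := mul_le_mul_of_nonneg_left h8 hκ.le
    have h10 : (κ + 6) / L ≤ κ * (1 - δ) / 4 := by
      have h1δ : 0 < 1 - δ := by linarith
      have hκδ : 0 < κ * (1 - δ) := by positivity
      have h11 : 4 * (κ + 6) / (κ * (1 - δ)) ≤ L := by linarith
      rw [div_le_iff₀ hκδ] at h11
      rw [div_le_iff₀ (by linarith)]
      linarith
    have h12 : κ * ((1 - δ) / 2 - 1 / L) - 6 / L = κ * (1 - δ) / 2 - (κ + 6) / L := by ring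
    linarith

end Pool.Agent.Lib.MP_82ec8b_co.LG
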