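import Pool.Agent.Lib.MP_f4ebb7_co.CHD.Defs
import Pool.Agent.Lib.MP_f4ebb7_co.HTA

/-!
# Counting the integers with a large prime factor from a set of positive density

* `psum2`: partial summation with an error term `3 / log y`.
* `card_SQ_le`: if all the primes of `Q` are larger than `√x`, the number of odd `m ≤ x` without a
  prime factor of `Q` is at most `(x + 1) / 2 - (x / 4) ∑ 1/q`.
-/

set_option autoImplicit false

namespace Pool.Agent.Lib.MP_82ec8b_co.LG

open Finset Pool.Agent.Lib.MP_f4ebb7_co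

private theorem psum_ind (P : ℕ → Prop) (κ : ℝ) (hκ : 0 ≤ κ) (y : ℕ) (hy : 3 ≤ y)
    (hθ : ∀ m : ℕ, y ≤ m → κ * m ≤ thP P m) (M : ℕ) (hyM : y ≤ M) :
    κ * (Real.log (Real.log ((M + 1 : ℕ) : ℝ)) - Real.log (Real.log ((y + 1 : ℕ) : ℝ)))
      + κ * (y * ff y - M * ff M)
      ≤ reP P M - reP P y - thP P M * ff M + thP P y * ff y := by
  induction M, hyM using Nat.le_induction with
  | base => simp
  | succ M hyM ih =>
    have hM3 : 3 ≤ M := by omega
    have h1 := step_id P hM3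
    have h2 := loglog_step hM3
    have h4 := hθ M hyM
    have h5 := ff_sub_nonneg hM3
    have h6 := mul_le_mul_of_nonneg_right h4 h5
    have h7 := mul_le_mul_of_nonneg_left h2 hκ
    have h8 : reP P (M + 1) = reP P M + (thP P (M + 1) - thP P M) * ff (M + 1) := by linarith
    rw [h8]
    have h9 : M + 1 + 1 = M + 2 := by ring
    rw [h9]
    have h10 : (((M + 1 : ℕ) : ℝ)) * ff (M + 1) = M * ff (M + 1) + ff (M + 1) := by
      push_cast
      ring
    rw [h10]
    nlinarith

private theorem reP_split (P : ℕ → Prop) {y M : ℕ} (h : y ≤ M) :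
    reP P M = reP (fun q => P q ∧ y < q) M + reP P y := by
  classical
  unfold reP
  rw [← Finset.sum_union]
  · apply Finset.sum_congr _ (fun _ _ => rfl)
    ext q
    simp only [mem_union, mem_filter, Nat.mem_primesLE]
    constructor
    · rintro ⟨⟨h1, h2⟩, h3⟩
      rcases Nat.lt_or_ge y q with h4 | h4
      · left; exact ⟨⟨h1, h2⟩, h3, h4⟩
      · right; exact ⟨⟨h4, h2⟩, h3⟩
    · rintro (⟨⟨h1, h2⟩, h3, _⟩ | ⟨⟨h1, h2⟩, h3⟩)
      · exact ⟨⟨h1, h2⟩, h3⟩
      · exact ⟨⟨h1.trans h, h2⟩, h3⟩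
  · rw [Finset.disjoint_left]
    intro q hq hq'
    simp only [mem_filter, Nat.mem_primesLE] at hq hq'
    omega

/-- partial summation with a small error term -/
theorem psum2 (P : ℕ → Prop) (κ : ℝ) (hκ : 0 ≤ κ) (y : ℕ) (hy : 3 ≤ y)
    (h : ∀ m : ℕ, y ≤ m → κ * m ≤ thP P m) (M : ℕ) (hM : y ≤ M) :
    κ * (Real.log (Real.log M) - Real.log (Real.log ((y + 1 : ℕ) : ℝ))) - 3 / Real.log y ≤
      reP (fun q => P q ∧ y < q) M := by
  classical
  have h1 := psum_ind P κ hκ y hy h M hM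
  have h0 := reP_split P hM
  have hM3 : 3 ≤ M := by omega
  have hly := one_le_log hy
  have hlM := one_le_log hM3
  have hy' : (0 : ℝ) < y := by exact_mod_cast (by omega : 0 < y)
  have hM' : (0 : ℝ) < M := by exact_mod_cast (by omega : 0 < M)
  have h2 : (y : ℝ) * ff y = 1 / Real.log y := by
    unfold ff; field_simp
  have h3 : (M : ℝ) * ff M = 1 / Real.log M := by
    unfold ff; field_simp
  have h6' : 0 ≤ 1 / Real.log (y : ℝ) := by positivity
  have hyM' : 1 / Real.log (M : ℝ) ≤ 1 / Real.log (y : ℝ) := by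
    apply one_div_le_one_div_of_le (by linarith)
    exact Real.log_le_log hy' (by exact_mod_cast hM)
  have h7 : 0 ≤ thP P M * ff M :=
    mul_nonneg (thP_nonneg P M) (by unfold ff; positivity)
  have hl4 : Real.log 4 ≤ 2 := by
    have h9 : Real.log 4 = 2 * Real.log 2 := by
      rw [show (4 : ℝ) = 2 ^ 2 by norm_num, Real.log_pow]; push_cast; ring
    have := Real.log_two_lt_d9
    linarith
  have h9 : thP P y * ff y ≤ 2 * (1 / Real.log y) := by
    calc thP P y * ff y
        ≤ (Real.log 4 * y) * ff y :=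
          mul_le_mul_of_nonneg_right (thP_le P y) (by unfold ff; positivity)
      _ = Real.log 4 * (1 / Real.log y) := by rw [mul_assoc, h2]
      _ ≤ 2 * (1 / Real.log y) := mul_le_mul_of_nonneg_right hl4 h6'
  have h10 : Real.log (Real.log M) ≤ Real.log (Real.log ((M + 1 : ℕ) : ℝ)) := by
    refine Real.log_le_log (by linarith) (Real.log_le_log hM' ?_)
    push_cast; linarith
  rw [h2, h3] at h1
  have h11 : κ * (Real.log (Real.log M) - Real.log (Real.log ((y + 1 : ℕ) : ℝ))) ≤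
      κ * (Real.log (Real.log ((M + 1 : ℕ) : ℝ)) - Real.log (Real.log ((y + 1 : ℕ) : ℝ))) :=
    mul_le_mul_of_nonneg_left (by linarith) hκ
  have h12 : 0 ≤ κ * (1 / Real.log (y : ℝ) - 1 / Real.log (M : ℝ)) :=
    mul_nonneg hκ (by linarith)
  have h13 : 3 / Real.log (y : ℝ) = 3 * (1 / Real.log y) := by ring
  rw [h13]
  linarith

private theorem card_mult (x q : ℕ) :
    ((Icc 1 x).filter (fun m => q ∣ m)).card = x / q := by
  have h := Nat.card_multiples' x q
  rw [← h]
  refine congrArg Finset.card ?_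
  ext m
  simp only [mem_filter, mem_Icc, mem_range]
  constructor
  · rintro ⟨⟨h1, h2⟩, h3⟩; exact ⟨by omega, by omega, h3⟩
  · rintro ⟨h1, h2, h3⟩; exact ⟨⟨Nat.pos_of_ne_zero h2, by omega⟩, h3⟩

/-- the odd multiples of an odd number -/
private theorem card_odd_mult (x q : ℕ) (hq : q % 2 = 1) :
    ((Icc 1 x).filter (fun m => m % 2 = 1 ∧ q ∣ m)).card + x / (q * 2) = x / q := by
  rw [← card_mult x q, ← card_mult x (q * 2), ← card_union_of_disjoint]
  · congr 1
    ext m
    simp only [mem_union, mem_filter, mem_Icc]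
    constructor
    · rintro (⟨h1, _, h3⟩ | ⟨h1, h2⟩)
      · exact ⟨h1, h3⟩
      · exact ⟨h1, (Dvd.intro _ rfl).trans h2⟩
    · rintro ⟨h1, h2⟩
      rcases Nat.mod_two_eq_zero_or_one m with h | h
      · right
        refine ⟨h1, Nat.Coprime.mul_dvd_of_dvd_of_dvd ?_ h2 (Nat.dvd_of_mod_eq_zero h)⟩
        exact (Nat.coprime_two_right.2 (Nat.odd_iff.2 hq))
      · left; exact ⟨h1, h, h2⟩
  · rw [Finset.disjoint_left]
    intro m hm hm'
    rw [mem_filter] at hm hm'
    have h1 : 2 ∣ m := (Dvd.intro_left q rfl).trans hm'.2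
    omega

open Classical in
/-- the number of odd `m ≤ x` such that every prime factor of `m` in `Q` is a multiple one, if all
the primes of `Q` are larger than `√x` and than `1` -/
theorem card_SQ_le (Q : ℕ → Prop) (x y : ℕ) (hxy : x < y ^ 2) (hy2 : 2 ≤ y)
    (hQ : ∀ q, Q q → y < q) :
    (((SQ Q x).filter (fun m => m % 2 = 1)).card : ℝ) ≤ (x + 1) / 2 - x / 4 * reP Q x := by
  classical
  set A := (Nat.primesLE x).filter Q with hA
  have hAm : ∀ q ∈ A, q ≤ x ∧ q.Prime ∧ Q q := by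
    intro q hq
    rw [hA, mem_filter, Nat.mem_primesLE] at hq
    exact ⟨hq.1.1, hq.1.2, hq.2⟩
  have hodd : ∀ q ∈ A, q % 2 = 1 := by
    intro q hq
    have h1 := hAm q hq
    have h2 := hQ q h1.2.2
    rcases h1.2.1.eq_two_or_odd with h3 | h3
    · omega
    · exact h3
  set O := (Icc 1 x).filter (fun m => m % 2 = 1) with hO
  have hOc : O.card * 2 ≤ x + 1 := by
    have h1 : O.card + x / 2 = x := by
      have h2 := card_mult x 2
      have h3 : O.card + ((Icc 1 x).filter (fun m => 2 ∣ m)).card = (Icc 1 x).card := by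
        have h4 := Finset.card_filter_add_card_filter_not (s := Icc 1 x) (fun m : ℕ => m % 2 = 1)
        rw [← h4, hO]
        congr 2
        refine Finset.filter_congr fun m _ => ?_
        omega
      rw [h2, Nat.card_Icc, Nat.add_sub_cancel] at h3
      exact h3
    omega
  set B := (SQ Q x).filter (fun m => m % 2 = 1) with hB
  have hdisj : (A : Set ℕ).PairwiseDisjoint
      (fun q => (Icc 1 x).filter (fun m => m % 2 = 1 ∧ q ∣ m)) := by
    intro q hq r hr hqr
    rw [Function.onFun, Finset.disjoint_left]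
    intro m hm hm'
    rw [mem_filter, mem_Icc] at hm hm'
    have h1 := hAm q hq
    have h2 := hAm r hr
    have h3 : Nat.Coprime q r := (Nat.coprime_primes h1.2.1 h2.2.1).2 hqr
    have h4 : q * r ∣ m := h3.mul_dvd_of_dvd_of_dvd hm.2.2 hm'.2.2
    have h5 : q * r ≤ m := Nat.le_of_dvd (by omega) h4
    have h6 : y * y < q * r := Nat.mul_lt_mul'' (hQ q h1.2.2) (hQ r h2.2.2)
    have h7 : y ^ 2 = y * y := by ring
    omega
  have hU : (A.biUnion fun q => (Icc 1 x).filter (fun m => m % 2 = 1 ∧ q ∣ m)) ⊆ O \ B := by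
    intro m hm
    rw [mem_biUnion] at hm
    obtain ⟨q, hq, hm⟩ := hm
    rw [mem_filter, mem_Icc] at hm
    have h1 := hAm q hq
    rw [mem_sdiff]
    refine ⟨mem_filter.2 ⟨mem_Icc.2 hm.1, hm.2.1⟩, fun hs => ?_⟩
    rw [hB, mem_filter, mem_SQ] at hs
    have h2 := hs.1.2.2 q h1.2.1 h1.2.2 hm.2.2
    have h3 : q ^ 2 ≤ m := Nat.le_of_dvd (by omega) h2
    have h4 : y ^ 2 < q ^ 2 := Nat.pow_lt_pow_left (hQ q h1.2.2) (by norm_num)
    omega
  have hcard := Finset.card_le_card hU
  rw [Finset.card_biUnion hdisj] at hcard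
  have hsub : B ⊆ O := by
    intro m hm
    rw [hB, mem_filter, mem_SQ] at hm
    exact mem_filter.2 ⟨mem_Icc.2 ⟨hm.1.1, hm.1.2.1⟩, hm.2⟩
  rw [Finset.card_sdiff_of_subset hsub] at hcard
  have hle := Finset.card_le_card hsub
  have h1 : ∑ q ∈ A, (((Icc 1 x).filter (fun m => m % 2 = 1 ∧ q ∣ m)).card : ℝ) ≤
      (x + 1) / 2 - B.card := by
    have h2 : ((∑ q ∈ A, ((Icc 1 x).filter (fun m => m % 2 = 1 ∧ q ∣ m)).card : ℕ) : ℝ) ≤
        ((O.card - B.card : ℕ) : ℝ) := by exact_mod_cast hcard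
    rw [Nat.cast_sub hle] at h2
    push_cast at h2
    have h3 : ((O.card : ℕ) : ℝ) * 2 ≤ x + 1 := by exact_mod_cast hOc
    linarith
  have h3 : (x : ℝ) / 4 * reP Q x ≤
      ∑ q ∈ A, (((Icc 1 x).filter (fun m => m % 2 = 1 ∧ q ∣ m)).card : ℝ) := by
    unfold reP
    rw [Finset.mul_sum]
    have hA' : (Nat.primesLE x).filter Q = A := rfl
    rw [hA']
    refine Finset.sum_le_sum fun q hq => ?_
    obtain ⟨h1, h2, _⟩ := hAm q hq
    have hq0 : 0 < q := h2.pos
    have hq' : (0 : ℝ) < q := by exact_mod_cast hq0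
    have h4 : (x : ℝ) / q < ((x / q : ℕ) : ℝ) + 1 := by
      have := Nat.lt_floor_add_one ((x : ℝ) / q)
      rwa [Nat.floor_div_eq_div] at this
    have h5 : 1 ≤ ((x / q : ℕ) : ℝ) := by
      exact_mod_cast (Nat.one_le_div_iff hq0).2 h1
    have h7 := card_odd_mult x q (hodd q hq)
    have h8 : x / (q * 2) * 2 ≤ x / q := by
      rw [← Nat.div_div_eq_div_mul]
      exact Nat.div_mul_le_self _ _
    have h9 : x / q ≤ ((Icc 1 x).filter (fun m => m % 2 = 1 ∧ q ∣ m)).card * 2 := by omega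
    have h10 : ((x / q : ℕ) : ℝ) ≤
        (((Icc 1 x).filter (fun m => m % 2 = 1 ∧ q ∣ m)).card : ℝ) * 2 := by exact_mod_cast h9
    have h6 : (x : ℝ) / 4 * (1 / q) = x / q / 4 := by ring
    rw [h6]
    linarith
  linarith

end Pool.Agent.Lib.MP_82ec8b_co.LG
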