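import Pool.Agent.Lib.MP_f4ebb7_co.CHD.MainG
import Pool.Agent.Lib.MP_82ec8b_co.LG.Asym
import Pool.Agent.Lib.MP_82ec8b_co.LG.Count

/-!
# Perfect binary arrays with `gcd(s,t) ≤ m^δ`, `δ < 1`: a positive proportion of the odd `m` has none

The odd `m ≤ x` with a prime factor `q > x^((1+δ)/2)` such that `q - 1` has a prime factor
`> q^(1/2+η)` have a positive proportion `≥ c (1 - δ)` (Goldfeld's theorem, partial summation), and
`goodG` applies to all of them outside sets of size `O(x / log x)`.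
-/

set_option autoImplicit false

namespace Pool.Agent.Lib.MP_82ec8b_co.LG

open Finset Pool.CHD Pool.Agent.Lib.MP_f4ebb7_co

/-- the set of the theorem -/
def SG (δ : ℝ) (x : ℕ) : Set ℕ := {m : ℕ | m % 2 = 1 ∧ m ≤ x ∧ ∃ a b s t : ℕ,
  s * t = 4 * 2 ^ (2 * a) * 3 ^ (2 * b) * m ^ 4 ∧
    (((2 ^ a * 3 ^ b) ^ 16 * Nat.gcd s t : ℕ) : ℝ) ≤ (m : ℝ) ^ δ ∧ HasPBA s t}

theorem SG_mono {δ δ' : ℝ} (h : δ ≤ δ') (x : ℕ) : SG δ x ⊆ SG δ' x := by
  rintro m ⟨h1, h2, a, b, s, t, h3, h4, h5⟩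
  refine ⟨h1, h2, a, b, s, t, h3, h4.trans ?_, h5⟩
  exact Real.rpow_le_rpow_of_exponent_le (by exact_mod_cast (by omega : 1 ≤ m)) h

theorem SG_finite (δ : ℝ) (x : ℕ) : (SG δ x).Finite :=
  Set.Finite.subset (Set.finite_Icc 1 x) fun m hm => ⟨by have := hm.1; omega, hm.2.1⟩

private theorem parts {c g : ℕ} {X : ℝ} (hc : 1 ≤ c) (hg : 1 ≤ g)
    (h : ((c ^ 16 * g : ℕ) : ℝ) ≤ X) : (c : ℝ) ^ 16 ≤ X ∧ (g : ℝ) ≤ X := by
  have hc' : (1 : ℝ) ≤ c := by exact_mod_cast hc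
  have hg' : (1 : ℝ) ≤ g := by exact_mod_cast hg
  push_cast at h
  have h16 : (1 : ℝ) ≤ (c : ℝ) ^ 16 := one_le_pow₀ hc'
  constructor
  · refine le_trans ?_ h
    exact le_mul_of_one_le_right (by positivity) hg'
  · refine le_trans ?_ h
    exact le_mul_of_one_le_left (by positivity) h16

private theorem sub2 (η : ℝ) (hη : 0 < η) (δ e : ℝ) (hδe : δ ≤ e) (hδ0 : 0 ≤ δ)
    (x z D y K : ℕ) (hx3 : 3 ≤ x) (hz3 : 3 ≤ z) (hzD : z ≤ D) (hDy : D ^ 2 ≤ y)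
    (hT : ∀ c : ℕ, (c : ℝ) ≤ (x : ℝ) ^ (e / 16) → (c * (z ^ K) ^ 2) ^ 4 ≤ D)
    (h6 : ∀ c : ℕ, (c : ℝ) ≤ (x : ℝ) ^ (e / 16) →
      4 * (Nat.log 2 (4 * (c * x ^ 2) ^ 2) + 1) * yg δ x ≤ y)
    (m : ℕ) (hm : m ∈ SG δ x) :
    NoExact (fun q => Pe η q ∧ y < q) m ∨ B13 D m ∨ B2 y z m ∨ B4 η y z m ∨ z ^ K < sm z m := by
  obtain ⟨hm2, hmx, a, b, s, t, hst, hcg, hP⟩ := hm
  have hm1 : 1 ≤ m := by omega
  by_contra hcon
  simp only [not_or, not_lt] at hcon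
  obtain ⟨h1, h2, h3, h4, h5⟩ := hcon
  have hx1 : (1 : ℝ) ≤ x := by exact_mod_cast (by omega : 1 ≤ x)
  have hx0 : (0 : ℝ) < x := by linarith
  have hmx' : (m : ℝ) ≤ x := by exact_mod_cast hmx
  have hm0 : (0 : ℝ) ≤ m := Nat.cast_nonneg m
  have hc1 : 1 ≤ 2 ^ a * 3 ^ b := Nat.mul_pos (pow_pos (by norm_num) a) (pow_pos (by norm_num) b)
  have hstpos : 0 < s * t := by
    rw [hst]; positivity
  have hs0 : s ≠ 0 := by rintro rfl; simp at hstpos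
  have hg1 : 1 ≤ Nat.gcd s t := Nat.gcd_pos_of_pos_left _ (Nat.pos_of_ne_zero hs0)
  have hmδ : (m : ℝ) ^ δ ≤ (x : ℝ) ^ δ := Real.rpow_le_rpow hm0 hmx' hδ0
  obtain ⟨hc16, hg⟩ := parts hc1 hg1 (hcg.trans hmδ)
  have hce : ((2 ^ a * 3 ^ b : ℕ) : ℝ) ≤ (x : ℝ) ^ (e / 16) := by
    have hc0 : (0 : ℝ) ≤ ((2 ^ a * 3 ^ b : ℕ) : ℝ) := Nat.cast_nonneg _
    have e1 : ((x : ℝ) ^ (e / 16)) ^ 16 = (x : ℝ) ^ e := by
      rw [← Real.rpow_natCast, ← Real.rpow_mul hx0.le]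
      congr 1
      push_cast; ring
    refine le_of_pow_le_pow_left₀ (n := 16) (by norm_num) (Real.rpow_nonneg hx0.le _) ?_
    rw [e1]
    exact hc16.trans (Real.rpow_le_rpow_of_exponent_le hx1 hδe)
  refine goodG (2 ^ a * 3 ^ b) 2 x y z D (z ^ K) m (yg δ x) s t η hη hc1 (by norm_num) hm1 hmx ?_
    (by omega) hzD hDy (hT _ hce) ?_ (Nat.le_floor hg) (h6 _ hce) h1 h2 h3 h4 h5 hP
  · intro q hq hqc
    rcases (Nat.Prime.dvd_mul hq).1 hqc with h8 | h8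
    · have := (Nat.prime_dvd_prime_iff_eq hq Nat.prime_two).1 (hq.dvd_of_dvd_pow h8)
      omega
    · have := (Nat.prime_dvd_prime_iff_eq hq Nat.prime_three).1 (hq.dvd_of_dvd_pow h8)
      omega
  · rw [hst]
    ring

open Classical in
private theorem count2 (η : ℝ) (x z D y K : ℕ) (S : Set ℕ)
    (hS : ∀ m ∈ S, m % 2 = 1 ∧ m ≤ x ∧ (NoExact (fun q => Pe η q ∧ y < q) m ∨ B13 D m ∨ B2 y z m ∨
      B4 η y z m ∨ z ^ K < sm z m)) :
    ((S.ncard : ℕ) : ℝ) ≤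
      (((SQ (fun q => Pe η q ∧ y < q) x).filter (fun m => m % 2 = 1)).card : ℝ) +
        ((Icc 1 x).filter (fun m => B13 D m)).card + ((Icc 1 x).filter (fun m => B2 y z m)).card +
        ((Icc 1 x).filter (fun m => B4 η y z m)).card +
        ((Icc 1 x).filter (fun m => z ^ K < sm z m)).card := by
  set A0 := (SQ (fun q => Pe η q ∧ y < q) x).filter (fun m => m % 2 = 1) with hA0
  set A1 := (Icc 1 x).filter (fun m => B13 D m) with hA1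
  set A2 := (Icc 1 x).filter (fun m => B2 y z m) with hA2
  set A3 := (Icc 1 x).filter (fun m => B4 η y z m) with hA3
  set A4 := (Icc 1 x).filter (fun m => z ^ K < sm z m) with hA4
  have h1 : S ⊆ ((A0 ∪ A1 ∪ A2 ∪ A3 ∪ A4 : Finset ℕ) : Set ℕ) := by
    intro m hm
    obtain ⟨h0, h2, h3⟩ := hS m hm
    have h1 : 1 ≤ m := by omega
    have hI : m ∈ Icc 1 x := mem_Icc.2 ⟨h1, h2⟩
    rw [Finset.mem_coe, mem_union, mem_union, mem_union, mem_union]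
    rcases h3 with h3 | h3 | h3 | h3 | h3
    · left; left; left; left
      rw [hA0, mem_filter, mem_SQ]; exact ⟨⟨h1, h2, h3⟩, h0⟩
    · left; left; left; right
      exact mem_filter.2 ⟨hI, h3⟩
    · left; left; right
      exact mem_filter.2 ⟨hI, h3⟩
    · left; right
      exact mem_filter.2 ⟨hI, h3⟩
    · right
      exact mem_filter.2 ⟨hI, h3⟩
  have h2 := Set.ncard_le_ncard h1 (Finset.finite_toSet _)
  rw [Set.ncard_coe_finset] at h2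
  have h3 : (A0 ∪ A1 ∪ A2 ∪ A3 ∪ A4).card ≤ A0.card + A1.card + A2.card + A3.card + A4.card := by
    have e1 := card_union_le (A0 ∪ A1 ∪ A2 ∪ A3) A4
    have e2 := card_union_le (A0 ∪ A1 ∪ A2) A3
    have e3 := card_union_le (A0 ∪ A1) A2
    have e4 := card_union_le A0 A1
    omega
  exact_mod_cast h2.trans h3

/-- the range `1/2 ≤ δ < 1` -/
theorem main_half (κ : ℝ) (hκ0 : 0 < κ) (hκ : κ < 1 / 2) : ∀ δ : ℝ, 1 / 2 ≤ δ → δ < 1 →
    ∃ x0 : ℕ, ∀ x : ℕ, x0 ≤ x →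
      (((SG δ x).ncard : ℕ) : ℝ) ≤ (1 / 2 - κ / 32 * (1 - δ)) * x := by
  classical
  obtain ⟨η, hη0, hη4, X0, hgold⟩ := gold κ hκ
  obtain ⟨C2, hC2, hcb2⟩ := cb2
  obtain ⟨C4, hC4, hcb4⟩ := cb4 η hη0 hη4
  intro δ hδ hδ1
  set e : ℝ := (1 + δ) / 2 with he
  have he0 : 0 < e := by linarith
  have he1 : e ≤ 1 := by linarith
  obtain ⟨xa, hxa⟩ := asyg_a e he0 he1 (max X0 3)
  obtain ⟨xb, hxb⟩ := asyg_b e η he0 he1 hη0
  obtain ⟨xd, hxd⟩ := asym κ δ hκ0 hδ hδ1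
  set w : ℝ := κ / 32 * (1 - δ) with hw
  have hw0 : 0 < w := by
    have : 0 < 1 - δ := by linarith
    positivity
  set C5 : ℝ := 4 + 2 * C2 + C4 + 1 + 1 with hC5
  have hC50 : 0 < C5 := by positivity
  obtain ⟨xc, hxc⟩ : ∃ xc : ℕ, ∀ x : ℕ, xc ≤ x → C5 / w ≤ Real.log x := by
    have h1 : Filter.Tendsto (fun x : ℕ => Real.log (x : ℝ)) Filter.atTop Filter.atTop :=
      Real.tendsto_log_atTop.comp tendsto_natCast_atTop_atTop
    exact Filter.eventually_atTop.1 (h1.eventually_ge_atTop _)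
  refine ⟨max xa (max xb (max xc xd)), fun x hx => ?_⟩
  have hx1 : xa ≤ x := (le_max_left _ _).trans hx
  have hx2 : xb ≤ x := ((le_max_left _ _).trans (le_max_right _ _)).trans hx
  have hx3 : xc ≤ x :=
    (((le_max_left _ _).trans (le_max_right _ _)).trans (le_max_right _ _)).trans hx
  have hx4 : xd ≤ x :=
    (((le_max_right _ _).trans (le_max_right _ _)).trans (le_max_right _ _)).trans hx
  obtain ⟨g1, g2, g3, g4, g5, g6, g7⟩ := hxa x hx1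
  obtain ⟨b1, b2, b3, b4, _⟩ := hxb x hx2
  obtain ⟨d1, d2, d3⟩ := hxd x hx4
  have hlogx := hxc x hx3
  have hxR : (0 : ℝ) < x := by exact_mod_cast (by omega : 0 < x)
  have hlog0 : 0 < Real.log x := lt_of_lt_of_le (by positivity) hlogx
  have hX0y : X0 ≤ yg e x := (le_max_left _ _).trans g4
  have hD1 : 1 ≤ Nat.sqrt (yg e x) := by omega
  have hcard := count2 η x (zz x) (Nat.sqrt (yg e x)) (yg e x) (kk (1 / 2) x) (SG δ x)
    (fun m hm => ⟨hm.1, hm.2.1, sub2 η hη0 δ e (by linarith) (by linarith) x (zz x)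
      (Nat.sqrt (yg e x)) (yg e x) (kk (1 / 2) x) g1 g2 g3 (Nat.sqrt_le' _)
      (fun c hc => (g7 c hc).1) d2 m hm⟩)
  refine hcard.trans ?_
  -- the main term
  have hmain : (((SQ (fun q => Pe η q ∧ yg e x < q) x).filter (fun m => m % 2 = 1)).card : ℝ) ≤
      (x + 1) / 2 - 2 * w * x := by
    have h1 := card_SQ_le (fun q => Pe η q ∧ yg e x < q) x (yg e x) d1 (by omega)
      (fun q hq => hq.2)
    have h2 := psum2 (Pe η) κ hκ0.le (yg e x) g5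
      (fun m hm => hgold m (hX0y.trans hm)) x g6
    have h3 : κ * (1 - δ) / 4 ≤ reP (fun q => Pe η q ∧ yg e x < q) x := d3.trans h2
    have h4 : x / 4 * (κ * (1 - δ) / 4) ≤ x / 4 * reP (fun q => Pe η q ∧ yg e x < q) x :=
      mul_le_mul_of_nonneg_left h3 (by positivity)
    have h5 : (x : ℝ) / 4 * (κ * (1 - δ) / 4) = 2 * w * x := by rw [hw]; ring
    linarith
  have k13 := cb13 x (Nat.sqrt (yg e x)) (by omega) hD1
  have k2 := hcb2 x (yg e x) (zz x) g1 (by omega) (by omega)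
  have k4 := hcb4 x (yg e x) (zz x) (by omega) g5 (by omega)
  have k5 := cb5 x (zz x) (zz x ^ kk (1 / 2) x) (kk (1 / 2) x) (by omega) le_rfl
  have l13 : 4 * x * (1 + Real.log x) ^ 2 / (Nat.sqrt (yg e x) : ℝ) ≤ 4 * x / Real.log x := by
    calc 4 * x * (1 + Real.log x) ^ 2 / (Nat.sqrt (yg e x) : ℝ)
        = 4 * x * ((1 + Real.log x) ^ 2 / (Nat.sqrt (yg e x) : ℝ)) := by ring
      _ ≤ 4 * x * (1 / Real.log x) := mul_le_mul_of_nonneg_left b1 (by positivity)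
      _ = 4 * x / Real.log x := by ring
  have l2 : C2 * x * Real.log x ^ 2 * ((zz x : ℝ) ^ (-(1 / 4) : ℝ) +
      (yg e x : ℝ) ^ (-(1 / 2) : ℝ)) ≤ 2 * C2 * x / Real.log x := by
    calc C2 * x * Real.log x ^ 2 * ((zz x : ℝ) ^ (-(1 / 4) : ℝ) +
        (yg e x : ℝ) ^ (-(1 / 2) : ℝ))
        = C2 * x * (Real.log x ^ 2 * ((zz x : ℝ) ^ (-(1 / 4) : ℝ) +
          (yg e x : ℝ) ^ (-(1 / 2) : ℝ))) := by ring
      _ ≤ C2 * x * (2 / Real.log x) := mul_le_mul_of_nonneg_left b2 (by positivity)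
      _ = 2 * C2 * x / Real.log x := by ring
  have l4 : C4 * x * (zz x : ℝ) ^ 2 * (yg e x : ℝ) ^ (-(2 * η)) ≤ C4 * x / Real.log x := by
    calc C4 * x * (zz x : ℝ) ^ 2 * (yg e x : ℝ) ^ (-(2 * η))
        = C4 * x * ((zz x : ℝ) ^ 2 * (yg e x : ℝ) ^ (-(2 * η))) := by ring
      _ ≤ C4 * x * (1 / Real.log x) := mul_le_mul_of_nonneg_left b3 (by positivity)
      _ = C4 * x / Real.log x := by ring
  have l5 : (x : ℝ) * zz x * (2 / 3 : ℝ) ^ kk (1 / 2) x ≤ x / Real.log x := by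
    calc (x : ℝ) * zz x * (2 / 3 : ℝ) ^ kk (1 / 2) x
        = x * ((zz x : ℝ) * (2 / 3 : ℝ) ^ kk (1 / 2) x) := by ring
      _ ≤ x * (1 / Real.log x) := mul_le_mul_of_nonneg_left b4 hxR.le
      _ = x / Real.log x := by ring
  have lhalf : (1 : ℝ) / 2 ≤ x / Real.log x := by
    rw [le_div_iff₀ hlog0]
    have := Real.log_le_sub_one_of_pos hxR
    linarith
  have hrest : 4 * x / Real.log x + 2 * C2 * x / Real.log x + C4 * x / Real.log x +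
      x / Real.log x + x / Real.log x ≤ w * x := by
    have e1 : 4 * x / Real.log x + 2 * C2 * x / Real.log x + C4 * x / Real.log x +
      x / Real.log x + x / Real.log x = C5 / Real.log x * x := by
      rw [hC5]; ring
    rw [e1]
    refine mul_le_mul_of_nonneg_right ?_ hxR.le
    rw [div_le_iff₀ hlog0]
    rw [div_le_iff₀ hw0] at hlogx
    linarith
  have hfinal : (1 / 2 - w) * x = ((x + 1) / 2 - 2 * w * x) + w * x - 1 / 2 := by ring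
  rw [hfinal]
  linarith [hmain, k13, k2, k4, k5, l13, l2, l4, l5, hrest, lhalf]

/-- **Theorem.** The number of the odd `m ≤ x` with an array is at most
`min (C δ^κ) (1/2 - c (1 - δ)) x`. -/
theorem main (κ : ℝ) (hκ0 : 0 < κ) (hκ : κ < 1 / 2) : ∃ C c : ℝ, 0 < c ∧ ∀ δ : ℝ, 0 < δ → δ < 1 →
    ∃ x0 : ℕ, ∀ x : ℕ, x0 ≤ x →
      (((SG δ x).ncard : ℕ) : ℝ) ≤ min (C * δ ^ κ) (1 / 2 - c * (1 - δ)) * x := by
  obtain ⟨C, hC⟩ := mainG κ hκ0 hκ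
  refine ⟨C, κ / 64, by positivity, fun δ hδ hδ1 => ?_⟩
  obtain ⟨x1, hx1⟩ := hC δ hδ hδ1.le
  -- the second bound
  have h2 : ∃ x2 : ℕ, ∀ x : ℕ, x2 ≤ x →
      (((SG δ x).ncard : ℕ) : ℝ) ≤ (1 / 2 - κ / 64 * (1 - δ)) * x := by
    rcases lt_or_ge δ (1 / 2) with h | h
    · obtain ⟨x2, h2⟩ := main_half κ hκ0 hκ (1 / 2) le_rfl (by norm_num)
      refine ⟨x2, fun x hx => ?_⟩
      have h3 : (((SG δ x).ncard : ℕ) : ℝ) ≤ ((SG (1 / 2) x).ncard : ℕ) := by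
        exact_mod_cast Set.ncard_le_ncard (SG_mono h.le x) (SG_finite _ _)
      refine (h3.trans (h2 x hx)).trans (mul_le_mul_of_nonneg_right ?_ (Nat.cast_nonneg x))
      nlinarith
    · obtain ⟨x2, h2⟩ := main_half κ hκ0 hκ δ h hδ1
      refine ⟨x2, fun x hx => ?_⟩
      refine (h2 x hx).trans (mul_le_mul_of_nonneg_right ?_ (Nat.cast_nonneg x))
      nlinarith
  obtain ⟨x2, hx2⟩ := h2
  refine ⟨max x1 x2, fun x hx => ?_⟩
  have hxx1 : x1 ≤ x := (le_max_left _ _).trans hx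
  have hxx2 : x2 ≤ x := (le_max_right _ _).trans hx
  rcases le_total (C * δ ^ κ) (1 / 2 - κ / 64 * (1 - δ)) with hmin | hmin
  · rw [min_eq_left hmin]
    refine le_trans ?_ (hx1 x hxx1)
    have hfin : {m : ℕ | 1 ≤ m ∧ m ≤ x ∧ ∃ a b s t : ℕ,
        ((2 ^ a * 3 ^ b : ℕ) : ℝ) ≤ (m : ℝ) ^ δ ∧
        s * t = 4 * 2 ^ (2 * a) * 3 ^ (2 * b) * m ^ 4 ∧ ((Nat.gcd s t : ℕ) : ℝ) ≤ (m : ℝ) ^ δ ∧
        HasPBA s t}.Finite :=
      Set.Finite.subset (Set.finite_Icc 1 x) fun m hm => ⟨hm.1, hm.2.1⟩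
    have hsub : SG δ x ⊆ {m : ℕ | 1 ≤ m ∧ m ≤ x ∧ ∃ a b s t : ℕ,
        ((2 ^ a * 3 ^ b : ℕ) : ℝ) ≤ (m : ℝ) ^ δ ∧
        s * t = 4 * 2 ^ (2 * a) * 3 ^ (2 * b) * m ^ 4 ∧ ((Nat.gcd s t : ℕ) : ℝ) ≤ (m : ℝ) ^ δ ∧
        HasPBA s t} := by
      rintro m ⟨hm2, hmx, a, b, s, t, hst, hcg, hP⟩
      have hm1 : 1 ≤ m := by omega
      have hc1 : 1 ≤ 2 ^ a * 3 ^ b :=
        Nat.mul_pos (pow_pos (by norm_num) a) (pow_pos (by norm_num) b)
      have hstpos : 0 < s * t := by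
        rw [hst]; positivity
      have hs0 : s ≠ 0 := by rintro rfl; simp at hstpos
      have hg1 : 1 ≤ Nat.gcd s t := Nat.gcd_pos_of_pos_left _ (Nat.pos_of_ne_zero hs0)
      obtain ⟨hc16, hg⟩ := parts hc1 hg1 hcg
      have hc' : (1 : ℝ) ≤ ((2 ^ a * 3 ^ b : ℕ) : ℝ) := by exact_mod_cast hc1
      exact ⟨hm1, hmx, a, b, s, t, (le_self_pow₀ hc' (by norm_num)).trans hc16, hst, hg, hP⟩
    exact_mod_cast Set.ncard_le_ncard hsub hfin
  · rw [min_eq_right hmin]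
    exact hx2 x hxx2

end Pool.Agent.Lib.MP_82ec8b_co.LG
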